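import Mathlib

namespace Pool.Agent.Results.MP_e3a9f0_pr.NoConstantRate

open scoped ENNReal BigOperators

/-- Exchange of summation for the upper sums, in `ℝ≥0∞`. -/
lemma swap (g : Finset ℕ+ → ℝ≥0∞) (w : Finset ℕ+ → ℝ≥0∞) :
    ∑' x, w x * (∑' y : Finset ℕ+, if x ⊆ y then g y else 0)
      = ∑' y, g y * ∑ x ∈ y.powerset, w x := by
  have h1 : ∀ x, w x * (∑' y : Finset ℕ+, if x ⊆ y then g y else 0)
      = ∑' y, w x * (if x ⊆ y then g y else 0) := fun x => ENNReal.tsum_mul_left.symm
  simp_rw [h1]
  rw [ENNReal.tsum_comm]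
  refine tsum_congr fun y => ?_
  rw [tsum_eq_sum (s := y.powerset)]
  · rw [Finset.mul_sum]
    refine Finset.sum_congr rfl fun x hx => ?_
    rw [if_pos (Finset.mem_powerset.1 hx), mul_comm]
  · intro x hx
    rw [if_neg (fun h => hx (Finset.mem_powerset.2 h)), mul_zero]

lemma pow_sum (y : Finset ℕ+) (m : ℝ≥0∞) :
    ∑ x ∈ y.powerset, m ^ x.card = (m + 1) ^ y.card := by
  rw [← Finset.sum_pow_mul_eq_add_pow]
  simp

lemma pow_sum_one (y : Finset ℕ+) (i : ℕ+) (m : ℝ≥0∞) :
    ∑ x ∈ y.powerset, (if i ∈ x then m ^ (x.card - 1) else 0)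
      = if i ∈ y then (m + 1) ^ (y.card - 1) else 0 := by
  by_cases hi : i ∈ y
  · rw [if_pos hi]
    have hy : y = insert i (y.erase i) := (Finset.insert_erase hi).symm
    have hne : i ∉ y.erase i := Finset.notMem_erase i y
    have hcard : y.card - 1 = (y.erase i).card := (Finset.card_erase_of_mem hi).symm
    rw [hcard]
    conv_lhs => rw [hy]
    rw [Finset.sum_powerset_insert hne]
    have h0 : ∑ x ∈ (y.erase i).powerset, (if i ∈ x then m ^ (x.card - 1) else 0) = 0 := by
      refine Finset.sum_eq_zero fun x hx => ?_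
      rw [if_neg]
      intro h
      exact hne (Finset.mem_powerset.1 hx h)
    rw [h0, zero_add, ← pow_sum]
    refine Finset.sum_congr rfl fun x hx => ?_
    have hix : i ∉ x := fun h => hne (Finset.mem_powerset.1 hx h)
    rw [if_pos (Finset.mem_insert_self i x), Finset.card_insert_of_notMem hix,
      Nat.add_sub_cancel]
  · rw [if_neg hi]
    refine Finset.sum_eq_zero fun x hx => ?_
    rw [if_neg]
    intro h
    exact hi (Finset.mem_powerset.1 hx h)

/-- There is no constant rate distribution on the finite subsets of the positive integers. -/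
theorem result (f : Finset ℕ+ → ℝ) (hpos : ∀ x, 0 < f x) (hsum : HasSum f 1) (α : ℝ) :
    ∃ x, f x ≠ α * ∑' y : Finset ℕ+, (if x ⊆ y then f y else 0) := by
  by_contra hcon
  push Not at hcon
  -- the upper sum at the empty set is the total mass
  have hF0 : ∑' y : Finset ℕ+, (if (∅ : Finset ℕ+) ⊆ y then f y else 0) = 1 := by
    rw [← hsum.tsum_eq]
    refine tsum_congr fun y => ?_
    rw [if_pos (Finset.empty_subset y)]
  have hα : f ∅ = α := by
    have := hcon ∅
    rw [hF0, mul_one] at this
    exact this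
  have hαpos : 0 < α := hα ▸ hpos ∅
  set g : Finset ℕ+ → ℝ≥0∞ := fun x => ENNReal.ofReal (f x) with hg
  set a : ℝ≥0∞ := ENNReal.ofReal α with ha
  have ha0 : a ≠ 0 := by
    rw [ha]; simpa using hαpos
  have hat : a ≠ ∞ := ENNReal.ofReal_ne_top
  have hgx : ∀ x, g x = a * ∑' y : Finset ℕ+, (if x ⊆ y then g y else 0) := by
    intro x
    have hs : Summable (fun y => if x ⊆ y then f y else 0) := by
      refine Summable.of_nonneg_of_le (fun y => ?_) (fun y => ?_) hsum.summable
      · split_ifs
        · exact (hpos y).le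
        · exact le_rfl
      · split_ifs
        · exact le_rfl
        · exact (hpos y).le
    have h1 : ∑' y : Finset ℕ+, (if x ⊆ y then g y else 0)
        = ENNReal.ofReal (∑' y : Finset ℕ+, (if x ⊆ y then f y else 0)) := by
      rw [ENNReal.ofReal_tsum_of_nonneg _ hs]
      · refine tsum_congr fun y => ?_
        split_ifs
        · rfl
        · simp
      · intro y
        split_ifs
        · exact (hpos y).le
        · exact le_rfl
    rw [h1, ha, ← ENNReal.ofReal_mul hαpos.le, ← hcon x]
  -- moments of the cardinality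
  set G : ℕ → ℝ≥0∞ := fun m => ∑' x, g x * (m : ℝ≥0∞) ^ x.card with hG
  set i : ℕ+ := 1 with hi
  set H : ℕ → ℝ≥0∞ := fun m => ∑' x, g x * (if i ∈ x then (m : ℝ≥0∞) ^ (x.card - 1) else 0)
    with hH
  have hGs : ∀ m, G m = a * G (m + 1) := by
    intro m
    have h1 : G m = ∑' x, a * ((m : ℝ≥0∞) ^ x.card * (∑' y : Finset ℕ+, if x ⊆ y then g y else 0)) := by
      simp only [hG]
      refine tsum_congr fun x => ?_
      conv_lhs => rw [hgx x]
      ring
    rw [h1, ENNReal.tsum_mul_left, swap]
    congr 1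
    simp only [hG]
    refine tsum_congr fun y => ?_
    rw [pow_sum]
    push_cast
    rfl
  have hHs : ∀ m, H m = a * H (m + 1) := by
    intro m
    have h1 : H m = ∑' x, a * ((if i ∈ x then (m : ℝ≥0∞) ^ (x.card - 1) else 0)
        * (∑' y : Finset ℕ+, if x ⊆ y then g y else 0)) := by
      simp only [hH]
      refine tsum_congr fun x => ?_
      conv_lhs => rw [hgx x]
      ring
    rw [h1, ENNReal.tsum_mul_left, swap g (fun x => if i ∈ x then (m : ℝ≥0∞) ^ (x.card - 1) else 0)]
    congr 1
    simp only [hH]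
    refine tsum_congr fun y => ?_
    rw [pow_sum_one]
    push_cast
    rfl
  have hG0 : G 0 = g ∅ := by
    simp only [hG]
    rw [tsum_eq_single ∅]
    · simp
    · intro x hx
      have : x.card ≠ 0 := by
        rwa [Ne, Finset.card_eq_zero]
      simp [zero_pow this]
  have hH0 : H 0 = g {i} := by
    simp only [hH]
    rw [tsum_eq_single {i}]
    · simp
    · intro x hx
      by_cases hix : i ∈ x
      · have hc : x.card - 1 ≠ 0 := by
          intro h0
          have h1 : 0 < x.card := Finset.card_pos.2 ⟨i, hix⟩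
          have h2 : x.card = 1 := by omega
          obtain ⟨b, hb⟩ := Finset.card_eq_one.1 h2
          rw [hb] at hix hx
          rw [Finset.mem_singleton] at hix
          exact hx (by rw [hix])
        simp [hix, zero_pow hc]
      · simp [hix]
  have hGm : ∀ m, a ^ m * G m = g ∅ := by
    intro m
    induction m with
    | zero => simpa using hG0
    | succ m ih => rw [← ih, hGs m, pow_succ]; ring
  have hHm : ∀ m, a ^ m * H m = g {i} := by
    intro m
    induction m with
    | zero => simpa using hH0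
    | succ m ih => rw [← ih, hHs m, pow_succ]; ring
  have hle : ∀ m : ℕ, (m : ℝ≥0∞) * H m ≤ G m := by
    intro m
    simp only [hG, hH]
    rw [← ENNReal.tsum_mul_left]
    refine ENNReal.tsum_le_tsum fun x => ?_
    by_cases hix : i ∈ x
    · rw [if_pos hix]
      have h1 : 0 < x.card := Finset.card_pos.2 ⟨i, hix⟩
      have h2 : (m : ℝ≥0∞) ^ x.card = (m : ℝ≥0∞) * (m : ℝ≥0∞) ^ (x.card - 1) := by
        rw [← pow_succ']
        congr 1
        omega
      rw [h2]
      apply le_of_eq
      ring
    · simp [hix]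
  have hfin : ∀ m : ℕ, (m : ℝ≥0∞) * g {i} ≤ g ∅ := by
    intro m
    rw [← hHm m, ← hGm m]
    calc (m : ℝ≥0∞) * (a ^ m * H m) = a ^ m * ((m : ℝ≥0∞) * H m) := by ring
      _ ≤ a ^ m * G m := by gcongr; exact hle m
  -- back to the reals
  have hreal : ∀ m : ℕ, (m : ℝ) * f {i} ≤ f ∅ := by
    intro m
    have h1 := hfin m
    have h2 : (m : ℝ≥0∞) = ENNReal.ofReal (m : ℝ) := (ENNReal.ofReal_natCast m).symm
    rw [h2] at h1
    simp only [hg] at h1
    rw [← ENNReal.ofReal_mul (Nat.cast_nonneg m)] at h1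
    exact (ENNReal.ofReal_le_ofReal_iff (hpos ∅).le).1 h1
  obtain ⟨m, hm⟩ := exists_nat_gt (f ∅ / f {i})
  have := hreal m
  rw [div_lt_iff₀ (hpos _)] at hm
  exact absurd this (not_le.2 hm)

end Pool.Agent.Results.MP_e3a9f0_pr.NoConstantRate
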